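import Pool.Agent.V8.Defs

/-!
# V8: the classes of configurations in `n - K` variables
-/

set_option autoImplicit false

namespace Pool.Agent.V8

open Finset Pool.Agent.H51.TB Pool.Agent.V7 Pool.Agent.V7.ST

/-- `n ^ a` and `(n - K) ^ a` are comparable for large `n`. -/
private theorem shift_pow (K A : ℕ) (δ : ℝ) (h0 : 0 < δ) (h1 : δ ≤ 1) : ∃ n₀ : ℕ, ∀ n : ℕ,
    n₀ ≤ n → ∀ a ≤ A, ((n - K : ℕ) : ℝ) ^ a ≤ (n : ℝ) ^ a ∧
      (n : ℝ) ^ a ≤ (1 + δ) * ((n - K : ℕ) : ℝ) ^ a := by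
  obtain ⟨n₁, hn₁⟩ := exists_nat_ge (2 * A * K / δ : ℝ)
  refine ⟨n₁ + K + 1, fun n hn a ha => ?_⟩
  have hKn : K ≤ n := by omega
  have hc : ((n - K : ℕ) : ℝ) = (n : ℝ) - K := by rw [Nat.cast_sub hKn]
  have hn0 : (0 : ℝ) < n := by exact_mod_cast (by omega : 0 < n)
  have hK : (K : ℝ) ≤ n := by exact_mod_cast hKn
  have hK0 : (0 : ℝ) ≤ K := Nat.cast_nonneg K
  rw [hc]
  refine ⟨pow_le_pow_left₀ (by linarith) (by linarith) a, ?_⟩
  have hx : (n : ℝ) - K = n * (1 + -(K / n : ℝ)) := by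
    field_simp
    ring
  rw [hx, mul_pow]
  have hKn1 : (K / n : ℝ) ≤ 1 := by rw [div_le_one hn0]; exact hK
  have hb := one_add_mul_le_pow (a := -(K / n : ℝ)) (by linarith) a
  -- a K / n ≤ δ / 2
  have h2 : (a : ℝ) * (K / n) ≤ δ / 2 := by
    have h3 : (n₁ : ℝ) ≤ n := by exact_mod_cast (by omega : n₁ ≤ n)
    have h4 : (2 * A * K / δ : ℝ) ≤ n := hn₁.trans h3
    rw [div_le_iff₀ h0] at h4
    have h5 : (a : ℝ) ≤ A := by exact_mod_cast ha
    have h6 : (a : ℝ) * K ≤ A * K := mul_le_mul_of_nonneg_right h5 hK0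
    rw [← mul_div_assoc, div_le_div_iff₀ hn0 (by norm_num)]
    nlinarith
  have h7 : 1 ≤ (1 + δ) * (1 + -(K / n : ℝ)) ^ a := by
    have h8 : 1 - δ / 2 ≤ (1 + -(K / n : ℝ)) ^ a := by nlinarith
    nlinarith
  calc (n : ℝ) ^ a = (n : ℝ) ^ a * 1 := by ring
    _ ≤ (n : ℝ) ^ a * ((1 + δ) * (1 + -(K / n : ℝ)) ^ a) :=
        mul_le_mul_of_nonneg_left h7 (pow_nonneg hn0.le a)
    _ = (1 + δ) * ((n : ℝ) ^ a * (1 + -(K / n : ℝ)) ^ a) := by ring

private theorem nom_nonneg' (M c j : ℕ) (I : Finset ℕ) : 0 ≤ nom M c j I := by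
  unfold nom
  positivity

/-- O1 -/
theorem cls0_shift (M c j K : ℕ) (hM : 1 ≤ M) (hj : j < M) (e : ℝ) (he : 0 < e) : ∃ e' : ℝ, 0 < e' ∧
    ∃ n₀ : ℕ, ∀ n : ℕ, n₀ ≤ n → ∀ N : Kd → ℕ, Cls0 M c j n e' N → Cls0 M c j (n - K) e N := by
  -- a common bound of the densities
  obtain ⟨Q, hQ0, hQ⟩ : ∃ Q : ℝ, 0 ≤ Q ∧ ∀ I, I ⊆ range j → nom M c j I ≤ Q ∧
      2 * ((2 * M - 1).choose M : ℝ) / c * nom M c j I ≤ Q := by
    have hn : ∀ I, 0 ≤ nom M c j I + 2 * ((2 * M - 1).choose M : ℝ) / c * nom M c j I := fun I => by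
      have := nom_nonneg' M c j I
      positivity
    refine ⟨∑ I ∈ (range j).powerset, (nom M c j I +
      2 * ((2 * M - 1).choose M : ℝ) / c * nom M c j I), sum_nonneg fun I _ => hn I,
      fun I hI => ?_⟩
    have h1 : nom M c j I + 2 * ((2 * M - 1).choose M : ℝ) / c * nom M c j I ≤
        ∑ I ∈ (range j).powerset, (nom M c j I +
          2 * ((2 * M - 1).choose M : ℝ) / c * nom M c j I) :=
      single_le_sum (f := fun I => nom M c j I + 2 * ((2 * M - 1).choose M : ℝ) / c * nom M c j I)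
        (fun I _ => hn I) (mem_powerset.2 hI)
    have h2 := nom_nonneg' M c j I
    have h3 : 0 ≤ 2 * ((2 * M - 1).choose M : ℝ) / c * nom M c j I := by positivity
    constructor <;> linarith
  obtain ⟨δ, hδ0, hδ1, hδ⟩ : ∃ δ : ℝ, 0 < δ ∧ δ ≤ 1 ∧ δ * (Q + 1) ≤ e / 2 := by
    refine ⟨min 1 (e / (2 * (Q + 1))), lt_min one_pos (by positivity), min_le_left _ _, ?_⟩
    have h1 : min 1 (e / (2 * (Q + 1))) * (Q + 1) ≤ e / (2 * (Q + 1)) * (Q + 1) :=
      mul_le_mul_of_nonneg_right (min_le_right _ _) (by linarith)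
    refine h1.trans (le_of_eq ?_)
    field_simp
  have hδQ : δ * Q ≤ e / 2 := by nlinarith
  obtain ⟨n₀, hn₀⟩ := shift_pow K (3 * M) δ hδ0 hδ1
  refine ⟨e / 4, by positivity, n₀, fun n hn N h => ⟨h.ok, fun I hI hne => ?_, fun i hi I hI => ?_,
    fun μ h1 hμ I hI => ?_⟩⟩
  · have hIc : I.card ≤ j := by simpa using card_le_card hI
    obtain ⟨ha, hb⟩ := hn₀ n hn (M + I.card - j) (by omega)
    have hbig := h.big I hI hne
    have hq := (hQ I hI).1
    have hq0 := nom_nonneg' M c j I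
    set x := ((n - K : ℕ) : ℝ) ^ (M + I.card - j) with hx
    set y := (n : ℝ) ^ (M + I.card - j) with hy
    have hx0 : 0 ≤ x := by positivity
    rw [abs_le] at hbig ⊢
    have h1 : nom M c j I * y ≤ nom M c j I * ((1 + δ) * x) := mul_le_mul_of_nonneg_left hb hq0
    have h2 : nom M c j I * x ≤ nom M c j I * y := mul_le_mul_of_nonneg_left ha hq0
    have h3 : nom M c j I * (δ * x) ≤ Q * (δ * x) :=
      mul_le_mul_of_nonneg_right hq (by positivity)
    have h4 : δ * Q * x ≤ e / 2 * x := mul_le_mul_of_nonneg_right hδQ hx0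
    have h5 : e / 4 * y ≤ e / 4 * ((1 + δ) * x) := mul_le_mul_of_nonneg_left hb (by positivity)
    have h6 : e / 4 * ((1 + δ) * x) ≤ e / 4 * (2 * x) :=
      mul_le_mul_of_nonneg_left (mul_le_mul_of_nonneg_right (by linarith) hx0) (by positivity)
    constructor <;> nlinarith
  · have hIc : I.card ≤ j := by simpa using card_le_card hI
    obtain ⟨ha, hb⟩ := hn₀ n hn (M + I.card - j) (by omega)
    have hsw := h.swp i hi I hI
    have hq := (hQ I hI).2
    have hq0 : 0 ≤ 2 * ((2 * M - 1).choose M : ℝ) / c * nom M c j I := by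
      have := nom_nonneg' M c j I
      positivity
    set x := ((n - K : ℕ) : ℝ) ^ (M + I.card - j) with hx
    set y := (n : ℝ) ^ (M + I.card - j) with hy
    set q := 2 * ((2 * M - 1).choose M : ℝ) / c * nom M c j I with hqd
    have hx0 : 0 ≤ x := by positivity
    have h1 : (q + e / 4) * y ≤ (q + e / 4) * ((1 + δ) * x) :=
      mul_le_mul_of_nonneg_left hb (by positivity)
    have h3 : q * (δ * x) ≤ Q * (δ * x) := mul_le_mul_of_nonneg_right hq (by positivity)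
    have h4 : δ * Q * x ≤ e / 2 * x := mul_le_mul_of_nonneg_right hδQ hx0
    have h6 : e / 4 * ((1 + δ) * x) ≤ e / 4 * (2 * x) :=
      mul_le_mul_of_nonneg_left (mul_le_mul_of_nonneg_right (by linarith) hx0) (by positivity)
    nlinarith
  · have hIc : I.card ≤ j := by simpa using card_le_card hI
    obtain ⟨ha, hb⟩ := hn₀ n hn (2 * M - μ + I.card - j) (by omega)
    have hs := h.sml μ h1 hμ I hI
    set x := ((n - K : ℕ) : ℝ) ^ (2 * M - μ + I.card - j) with hx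
    set y := (n : ℝ) ^ (2 * M - μ + I.card - j) with hy
    have hx0 : 0 ≤ x := by positivity
    have h5 : e / 4 * y ≤ e / 4 * ((1 + δ) * x) := mul_le_mul_of_nonneg_left hb (by positivity)
    have h6 : e / 4 * ((1 + δ) * x) ≤ e / 4 * (2 * x) :=
      mul_le_mul_of_nonneg_left (mul_le_mul_of_nonneg_right (by linarith) hx0) (by positivity)
    nlinarith

end Pool.Agent.V8
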