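import Pool.Agent.V8.Room.Dec
import Pool.Agent.V8.Room.Size
import Pool.Agent.V8.Room.Cls
import Pool.Agent.V8.F1
import Pool.Agent.V7.ST.Equiv

/-!
# V8, ROOM: independence for bounded exponents

All points are specialised to the subspace where the last `K` coordinates vanish; there the conditions
decouple, and derivatives carry the independence from the forms without the last variables to all
pieces.
-/

set_option autoImplicit false
set_option linter.unusedSectionVars false

namespace Pool.Agent.V8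

open Finset Module Pool.Agent.H51.TB Pool.Agent.V7 Pool.Agent.V7.ST

variable {K n : ℕ}

/-- The map behind `sgm`. -/
def sgF (h : K ≤ n) : Fin (n - K) ⊕ Fin K → Fin n :=
  Sum.elim (fun s => ⟨s.1, by omega⟩) fun i => ⟨n - 1 - i.1, by omega⟩

theorem sgF_inj (h : K ≤ n) : Function.Injective (sgF h) := by
  rintro (s | i) (s' | i') h1
  · have h2 : s.1 = s'.1 := congrArg (fun x : Fin n => x.1) h1
    exact congrArg Sum.inl (Fin.ext h2)
  · have h2 : s.1 = n - 1 - i'.1 := congrArg Fin.val h1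
    omega
  · have h2 : n - 1 - i.1 = s'.1 := congrArg Fin.val h1
    omega
  · have h2 : n - 1 - i.1 = n - 1 - i'.1 := congrArg Fin.val h1
    exact congrArg Sum.inr (Fin.ext (by omega))

/-- The last `K` variables are the second part. -/
noncomputable def sgm (h : K ≤ n) : Fin (n - K) ⊕ Fin K ≃ Fin n :=
  Equiv.ofBijective (sgF h) ((Fintype.bijective_iff_injective_and_card _).2
    ⟨sgF_inj h, by rw [Fintype.card_sum, Fintype.card_fin, Fintype.card_fin, Fintype.card_fin]; omega⟩)

theorem sgm_inl (h : K ≤ n) (s : Fin (n - K)) : (sgm h (Sum.inl s)).1 = s.1 := rfl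

theorem sgm_inr (h : K ≤ n) (i : Fin K) : (sgm h (Sum.inr i)).1 = n - 1 - i.1 := rfl

/-- The positions with the last coordinates `0`. -/
noncomputable def phn (h : K ≤ n) : Fin n ⊕ Fin n → Option (Fin (n - K) ⊕ Fin (n - K)) :=
  fun v => phi (Sum.map (sgm h).symm (sgm h).symm v)

theorem ex0_phn (h : K ≤ n) (q : Fin (n - K) ⊕ Fin (n - K) → ℂ) :
    (fun s => ex0 (phn h) q (Sum.map (sgm h) (sgm h) s)) = ex0 phi q := by
  funext s
  show (phi (Sum.map (sgm h).symm (sgm h).symm (Sum.map (sgm h) (sgm h) s))).elim 0 q =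
    (phi s).elim 0 q
  congr 1
  rcases s with s | s <;> simp

theorem ex0_phn_of (h : K ≤ n) (q : Fin n ⊕ Fin n → ℂ)
    (hq : ∀ i : Fin n, n - K ≤ i.1 → q (Sum.inl i) = 0 ∧ q (Sum.inr i) = 0) :
    ex0 (phn h) (Sum.elim (fun s => q (Sum.inl (sgm h (Sum.inl s))))
      fun s => q (Sum.inr (sgm h (Sum.inl s)))) = q := by
  funext v
  rcases v with v | v
  · obtain ⟨s, rfl⟩ := (sgm h).surjective v
    show (phi (Sum.inl ((sgm h).symm (sgm h s)))).elim 0 _ = _
    rw [Equiv.symm_apply_apply]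
    rcases s with s | s
    · rfl
    · refine ((hq _ ?_).1).symm
      rw [sgm_inr]
      omega
  · obtain ⟨s, rfl⟩ := (sgm h).surjective v
    show (phi (Sum.inr ((sgm h).symm (sgm h s)))).elim 0 _ = _
    rw [Equiv.symm_apply_apply]
    rcases s with s | s
    · rfl
    · refine ((hq _ ?_).2).symm
      rw [sgm_inr]
      omega

theorem mem_ExB_sgm (B : Finset (Fin K → ℕ)) {c d j : ℕ} (h : K ≤ n) (a : Fin n → ℕ) :
    a ∈ ExB B c n d j ↔ (fun s => a (sgm h s)) ∈ EB (fun s => blk c n (sgm h s)) d j B := by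
  rw [mem_ExB, mem_EB, mem_Ex_equiv (sgm h) (fun s => blk c n (sgm h s)) (blk c n) (fun _ => rfl)]
  have h1 : jx K n a = pb fun s => a (sgm h s) := by
    funext i
    show (if h : i.1 < n then a ⟨n - 1 - i.1, by omega⟩ else 0) = a (sgm h (Sum.inr i))
    rw [dif_pos (by omega)]
    exact congrArg a (Fin.ext (sgm_inr h i).symm)
  rw [h1]

/-- The number of exponents and the independence of the conditions at positions with the last
coordinates `0`. -/
theorem surj_LSB (B : Finset (Fin K → ℕ)) (M c j : ℕ) (hM : 1 ≤ M) (hc : 1 ≤ c)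
    (hn : j * c + K < n) {κ : Type} (m : κ → Kd) (hm : ∀ i, (m i).Ok M j)
    (p : κ → Fin (n - K) ⊕ Fin (n - K) → ℂ)
    (h : Surj fun i => (LS M (blk c (n - K)) j).V (fun _ : Unit => m i) fun _ => p i) :
    Surj fun i => (LSB B M c n j).V (fun _ : Unit => m i) fun _ =>
      ex0 (phn (show K ≤ n by omega)) (p i) := by
  have hK : K ≤ n := by omega
  have hge : ∀ x : ℕ, j * c ≤ x → j ≤ x / c := fun x hx => (Nat.le_div_iff_mul_le hc).2 hx
  have h1 := surj_EB (β₀ := blk c (n - K)) (β := fun s => blk c n (sgm hK s)) (j := j)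
    (z := ⟨j * c, by omega⟩) (fun s => by
      show (sgm hK (Sum.inl s)).1 / c = s.1 / c
      rw [sgm_inl]) (fun t => by
      show j ≤ (sgm hK (Sum.inr t)).1 / c
      refine hge _ ?_
      rw [sgm_inr]
      omega) (hge _ le_rfl) M hM B m hm p h
  intro f
  obtain ⟨g, hg⟩ := h1 fun i a => f i ((exE (sgm hK) (mem_ExB_sgm B hK)).symm a)
  refine ⟨fun a => g (exE (sgm hK) (mem_ExB_sgm B hK) a), fun i => ?_⟩
  have h2 := hg i
  rw [mem_LSA] at h2 ⊢
  intro _
  have h3 := satK_equiv (sgm hK) (mem_ExB_sgm B hK (c := c) (d := 2 * M - 1) (j := j)) M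
    (fun s => blk c n (sgm hK s)) (blk c n)
    (fun _ => rfl) (m i) (ex0 (phn hK) (p i))
    (g - fun a => f i ((exE (sgm hK) (mem_ExB_sgm B hK)).symm a))
  rw [ex0_phn] at h3
  have h4 := h3.2 (h2 ())
  have h5 : (fun a : {a // a ∈ ExB B c n (2 * M - 1) j} =>
      (g - fun a => f i ((exE (sgm hK) (mem_ExB_sgm B hK)).symm a))
        (exE (sgm hK) (mem_ExB_sgm B hK) a)) =
      (fun a => g (exE (sgm hK) (mem_ExB_sgm B hK) a)) - f i := by
    funext a
    rw [Pi.sub_apply, Pi.sub_apply, Equiv.symm_apply_apply]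
  rw [h5] at h4
  exact h4

/-- O2: independence for the bounded exponents. -/
theorem gM_LSB_le (B : Finset (Fin K → ℕ)) (hB : Dn B) (M c j n : ℕ) (hM : 1 ≤ M) (hj : j < M)
    (hc : 1 ≤ c) (hn : j * c + K < n) (s : Multiset Kd) (hs : ∀ τ ∈ s, τ.Ok M j)
    (h : (gM (LS M (blk c (n - K)) j) s : ℤ) ≤ vd M c j (n - K) s) :
    (gM (LSB B M c n j) s : ℤ) ≤ vdW M (bJ B c) j n s := by
  obtain ⟨m, hm, hg⟩ := exists_conf (LS M (blk c (n - K)) j) s
  have hmok : ∀ i, (m i).Ok M j := fun i => hs _ (by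
    rw [← hm]
    exact Multiset.mem_map_of_mem m (mem_univ_val i))
  have hsum : ∀ w : Kd → ℕ, ∑ i, w (m i) = (s.map w).sum := by
    intro w
    have h1 := congrArg (fun t : Multiset Kd => (t.map w).sum) hm
    simp only [Multiset.map_map] at h1
    exact h1
  have key := gd_of_surj (LS M (blk c (n - K)) j) (LSB B M c n j)
    (phn (show K ≤ n by omega)) m (wt M c (n - K)) (wtW M (bJ B c) n)
    (fun i => size_blk hM hc (by omega) (hmok i)) (by
      rw [hg, hsum, Fintype.card_coe, card_Ex_blk hc (by omega)]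
      unfold vd at h
      omega) (fun i => by
      obtain ⟨q, hq, h1⟩ := wt_le_at B hB M c j n hM hj hc hn (hmok i)
      refine ⟨Sum.elim (fun s => q (Sum.inl (sgm (show K ≤ n by omega) (Sum.inl s))))
        fun s => q (Sum.inr (sgm (show K ≤ n by omega) (Sum.inl s))), ?_⟩
      rw [ex0_phn_of (show K ≤ n by omega) q hq, Fintype.card_coe]
      exact h1) fun p hp => surj_LSB B M c j hM hc hn m hmok p hp
  rw [gd_eq_gM, hm, hsum, Fintype.card_coe, card_ExB B hc (by omega)] at key
  unfold vdW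
  omega

/-- O3: OJ for the bounded exponents. -/
theorem ojB_of (B : Finset (Fin K → ℕ)) (hB : Dn B) (M c j : ℕ) (hM : 1 ≤ M) (hj : j < M)
    (hc : 1 ≤ c) (hO : OJ M c j) : OJB B M c j := by
  obtain ⟨e, he, n₀, h⟩ := hO
  obtain ⟨e', he', n₁, h₁⟩ := cls0_shift M c j K hM hj e he
  refine ⟨e', he', n₀ + n₁ + j * c + K + 1, fun n hn s hs hn' => ?_⟩
  refine gM_LSB_le B hB M c j n hM hj hc (by omega) s
    (fun τ hτ => mem_kds.1 (hs.ok τ (Multiset.count_ne_zero.2 hτ))) ?_
  exact h (n - K) (by omega) s (h₁ n (by omega) _ hs) hn'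

end Pool.Agent.V8
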