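import Pool.Agent.V8.Defs
import Pool.Agent.H51.TB.Gn
import Pool.Agent.H51.TB.Gd

/-!
# V8, ROOM: independence as surjectivity
-/

set_option autoImplicit false
set_option linter.unusedSectionVars false

namespace Pool.Agent.V8

open Finset MvPolynomial Pool.Agent.H51.TB

/-- Independence of the conditions: every family of values is attained. -/
def Surj {E κ : Type} (V : κ → Submodule ℂ (E → ℂ)) : Prop :=
  ∀ f : κ → E → ℂ, ∃ g : E → ℂ, ∀ i, g - f i ∈ V i

/-- The position with the coordinates `q`, the others `0`. -/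
def ex0 {ν₀ ν : Type} (φ : ν → Option ν₀) (q : ν₀ → ℂ) : ν → ℂ := fun v => (φ v).elim 0 q

section

variable {E κ : Type} [Fintype E] [Fintype κ] (V : κ → Submodule ℂ (E → ℂ))

/-- The map to the product of the quotients. -/
private noncomputable def SurjX.Phi : (E → ℂ) →ₗ[ℂ] ((i : κ) → (E → ℂ) ⧸ V i) :=
  LinearMap.pi fun i => (V i).mkQ

private theorem SurjX.ker_Phi : LinearMap.ker (SurjX.Phi V) = ⨅ i, V i := by
  ext f
  rw [LinearMap.mem_ker, Submodule.mem_iInf, funext_iff]
  refine forall_congr' fun i => ?_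
  show Submodule.Quotient.mk f = 0 ↔ _
  rw [Submodule.Quotient.mk_eq_zero]

private theorem SurjX.range_Phi : Surj V ↔ LinearMap.range (SurjX.Phi V) = ⊤ := by
  rw [LinearMap.range_eq_top]
  constructor
  · intro h y
    choose f hf using fun i => Submodule.Quotient.mk_surjective (V i) (y i)
    obtain ⟨g, hg⟩ := h f
    refine ⟨g, funext fun i => ?_⟩
    show Submodule.Quotient.mk g = y i
    rw [← hf i]
    exact (Submodule.Quotient.eq (V i)).2 (hg i)
  · intro h f
    obtain ⟨g, hg⟩ := h fun i => Submodule.Quotient.mk (f i)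
    refine ⟨g, fun i => ?_⟩
    have h1 : (Submodule.Quotient.mk g : (E → ℂ) ⧸ V i) = Submodule.Quotient.mk (f i) :=
      congrFun hg i
    exact (Submodule.Quotient.eq (V i)).1 h1

private theorem SurjX.finrank_prod : Module.finrank ℂ ((i : κ) → (E → ℂ) ⧸ V i) =
    ∑ i, (Fintype.card E - Module.finrank ℂ (V i)) := by
  rw [Module.finrank_pi_fintype]
  refine sum_congr rfl fun i _ => ?_
  have h1 := Submodule.finrank_quotient_add_finrank (V i)
  rw [Module.finrank_fintype_fun_eq_card] at h1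
  omega

private theorem SurjX.rank : Module.finrank ℂ (LinearMap.range (SurjX.Phi V)) +
    Module.finrank ℂ (⨅ i, V i : Submodule ℂ (E → ℂ)) = Fintype.card E := by
  have h1 := LinearMap.finrank_range_add_finrank_ker (SurjX.Phi V)
  rwa [SurjX.ker_Phi, Module.finrank_fintype_fun_eq_card] at h1

theorem surj_of_count (h : Module.finrank ℂ (⨅ i, V i : Submodule ℂ (E → ℂ)) +
    ∑ i, (Fintype.card E - Module.finrank ℂ (V i)) ≤ Fintype.card E) : Surj V := by
  rw [SurjX.range_Phi]
  refine Submodule.eq_top_of_finrank_eq (le_antisymm (Submodule.finrank_le _) ?_)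
  rw [SurjX.finrank_prod]
  have := SurjX.rank V
  omega

theorem count_of_surj (h : Surj V) : Module.finrank ℂ (⨅ i, V i : Submodule ℂ (E → ℂ)) +
    ∑ i, (Fintype.card E - Module.finrank ℂ (V i)) = Fintype.card E := by
  rw [SurjX.range_Phi] at h
  have h1 := SurjX.rank V
  rw [h, finrank_top, SurjX.finrank_prod] at h1
  omega

end

theorem V_eq_iInf {E ν κ T : Type} [Fintype E] (S : Sys E ν T) (m : κ → T) (p : κ → ν → ℂ) :
    S.V m p = ⨅ i, S.V (fun _ : Unit => m i) fun _ => p i := by
  ext f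
  rw [Submodule.mem_iInf, S.mem_V]
  refine forall_congr' fun i => ?_
  rw [S.mem_V]
  exact ⟨fun h _ r => h r, fun h r => h () r⟩

/-- The system `S` at the positions some of whose coordinates are `0`. -/
private noncomputable def SurjX.pull {E ν₀ ν T : Type} (S : Sys E ν T) (φ : ν → Option ν₀) :
    Sys E ν₀ T where
  R := S.R
  fin := S.fin
  co := fun t r e => aeval (fun v => (φ v).elim (0 : MvPolynomial ν₀ ℂ) X) (S.co t r e)

private theorem SurjX.eval_pull {ν₀ ν : Type} (φ : ν → Option ν₀) (q : ν₀ → ℂ)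
    (G : MvPolynomial ν ℂ) :
    eval q (aeval (fun v => (φ v).elim (0 : MvPolynomial ν₀ ℂ) X) G) = eval (ex0 φ q) G := by
  have key : ∀ v, eval q ((φ v).elim (0 : MvPolynomial ν₀ ℂ) X) = ex0 φ q v := by
    intro v
    unfold ex0
    cases φ v with
    | none => simp
    | some a => simp
  induction G using MvPolynomial.induction_on with
  | C c => simp
  | add p q hp hq => rw [map_add, map_add, map_add, hp, hq]
  | mul_X p i hp => rw [map_mul, map_mul, map_mul, hp, aeval_X, eval_X, key]

private theorem SurjX.pull_V {E ν₀ ν κ T : Type} [Fintype E] (S : Sys E ν T) (φ : ν → Option ν₀)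
    (m : κ → T) (p : κ → ν₀ → ℂ) : (SurjX.pull S φ).V m p = S.V m fun i => ex0 φ (p i) := by
  ext f
  rw [Sys.mem_V, Sys.mem_V]
  refine forall_congr' fun i => forall_congr' fun r => ?_
  rw [sum_congr rfl fun e _ => ?_]
  show eval (p i) (aeval (fun v => (φ v).elim (0 : MvPolynomial ν₀ ℂ) X) (S.co (m i) r e)) * f e = _
  rw [SurjX.eval_pull]

/-- Independence is transported from the system `S₀` to the positions with some coordinates `0` of the
system `S`. -/
theorem gd_of_surj {E₀ E ν₀ ν κ T : Type} [Fintype E₀] [Fintype E] [Fintype κ]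
    (S₀ : Sys E₀ ν₀ T) (S : Sys E ν T) (φ : ν → Option ν₀) (m : κ → T) (w₀ w : T → ℕ)
    (h₀ : ∀ i, S₀.size (m i) ≤ w₀ (m i))
    (h : S₀.gd m + ∑ i, w₀ (m i) ≤ Fintype.card E₀)
    (hs : ∀ i, ∃ q : ν₀ → ℂ,
      Module.finrank ℂ (S.V (fun _ : Unit => m i) fun _ => ex0 φ q) + w (m i) ≤ Fintype.card E)
    (hT : ∀ p : κ → ν₀ → ℂ, Surj (fun i => S₀.V (fun _ : Unit => m i) fun _ => p i) →
      Surj fun i => S.V (fun _ : Unit => m i) fun _ => ex0 φ (p i)) :
    S.gd m + ∑ i, w (m i) ≤ Fintype.card E := by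
  have h1 : Gn κ ν₀ fun p => ∀ i ∈ (univ : Finset κ),
      Module.finrank ℂ ((SurjX.pull S φ).V (fun _ : Unit => m i) fun _ => p i) =
        (SurjX.pull S φ).gd fun _ : Unit => m i := by
    refine Gn.all univ fun i _ => ?_
    exact Gn.comap (fun _ : Unit => i) (fun _ _ _ => rfl)
      (gn_gd (SurjX.pull S φ) fun _ : Unit => m i)
  obtain ⟨p, hp0, hp1⟩ := ((gn_gd S₀ m).and h1).exists
  have hS : Surj fun i => S.V (fun _ : Unit => m i) fun _ => ex0 φ (p i) := by
    refine hT p (surj_of_count _ ?_)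
    rw [← V_eq_iInf, hp0]
    refine (Nat.add_le_add_left (sum_le_sum fun i _ => ?_) _).trans h
    refine le_trans ?_ (h₀ i)
    have h2 := gd_le S₀ (fun _ : Unit => m i) fun _ => p i
    have h3 := gd_unit S₀ (m i)
    omega
  have h4 := count_of_surj _ hS
  rw [← V_eq_iInf] at h4
  have h5 : ∑ i, w (m i) ≤ ∑ i, (Fintype.card E -
      Module.finrank ℂ (S.V (fun _ : Unit => m i) fun _ => ex0 φ (p i))) := by
    refine sum_le_sum fun i _ => ?_
    obtain ⟨q, hq⟩ := hs i
    have h6 := hp1 i (mem_univ i)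
    have h7 := gd_le (SurjX.pull S φ) (fun _ : Unit => m i) fun _ => q
    rw [SurjX.pull_V] at h6 h7
    omega
  have h8 := gd_le S m fun i => ex0 φ (p i)
  omega

end Pool.Agent.V8
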