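import Pool.Agent.V8.Room.Der
import Pool.Agent.V8.Room.Surj

/-!
# V8, ROOM: independence on the piece `0` gives independence

Variables `ν₀ ⊕ η`, points with the coordinates on `η` equal to `0`.
-/

set_option autoImplicit false
set_option linter.unusedSectionVars false

namespace Pool.Agent.V8

open Finset MvPolynomial Pool.Agent.H51.TB Pool.Agent.H54.V7 Pool.Agent.V7
open Pool.Agent.H18.Ex (tcr)

section

variable {ν₀ η : Type} [Fintype ν₀] [DecidableEq ν₀] [Fintype η] [DecidableEq η]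

/-- The exponents of the level `j` which are in `B` on the second part. -/
def EB (β : ν₀ ⊕ η → ℕ) (d j : ℕ) (B : Finset (η → ℕ)) : Finset (ν₀ ⊕ η → ℕ) :=
  (Ex β d j).filter fun a => pb a ∈ B

theorem mem_EB {β : ν₀ ⊕ η → ℕ} {d j : ℕ} {B : Finset (η → ℕ)} {a : ν₀ ⊕ η → ℕ} :
    a ∈ EB β d j B ↔ a ∈ Ex β d j ∧ pb a ∈ B := by
  unfold EB
  rw [mem_filter]

/-- The coordinates on the second part are `0`. -/
def phi : (ν₀ ⊕ η) ⊕ (ν₀ ⊕ η) → Option (ν₀ ⊕ ν₀)
  | Sum.inl (Sum.inl s) => some (Sum.inl s)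
  | Sum.inl (Sum.inr _) => none
  | Sum.inr (Sum.inl s) => some (Sum.inr s)
  | Sum.inr (Sum.inr _) => none

theorem msk_phi_inl (β₀ : ν₀ → ℕ) (β : ν₀ ⊕ η → ℕ) (hβ : ∀ s, β (Sum.inl s) = β₀ s)
    (I : Finset ℕ) (q : ν₀ ⊕ ν₀ → ℂ) :
    (msk β I fun s => ex0 phi q (Sum.inl s)) =
      Sum.elim (msk β₀ I fun s => q (Sum.inl s)) fun _ => (0 : ℂ) := by
  funext s
  rcases s with s | s
  · show (if β (Sum.inl s) ∈ I then (0 : ℂ) else q (Sum.inl s)) =
      if β₀ s ∈ I then 0 else q (Sum.inl s)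
    rw [hβ]
  · show (if β (Sum.inr s) ∈ I then (0 : ℂ) else 0) = 0
    rw [ite_self]

theorem msk_phi_inr (β₀ : ν₀ → ℕ) (β : ν₀ ⊕ η → ℕ) (hβ : ∀ s, β (Sum.inl s) = β₀ s)
    (I : Finset ℕ) (q : ν₀ ⊕ ν₀ → ℂ) :
    (msk β I fun s => ex0 phi q (Sum.inr s)) =
      Sum.elim (msk β₀ I fun s => q (Sum.inr s)) fun _ => (0 : ℂ) := by
  funext s
  rcases s with s | s
  · show (if β (Sum.inl s) ∈ I then (0 : ℂ) else q (Sum.inr s)) =
      if β₀ s ∈ I then 0 else q (Sum.inr s)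
    rw [hβ]
  · show (if β (Sum.inr s) ∈ I then (0 : ℂ) else 0) = 0
    rw [ite_self]

variable {β₀ : ν₀ → ℕ} {β : ν₀ ⊕ η → ℕ} {j : ℕ} {z : ν₀}

theorem mem_EB_iff (hβ : ∀ s, β (Sum.inl s) = β₀ s) (hη : ∀ t, j ≤ β (Sum.inr t))
    (hz : j ≤ β₀ z) (d : ℕ) {B : Finset (η → ℕ)} {b₀ : η → ℕ} (hb : b₀ ∈ B) (e : ν₀ → ℕ) :
    Sum.elim e b₀ ∈ EB β d j B ↔ e + zs z (∑ s, b₀ s) ∈ Ex β₀ d j := by
  rw [mem_EB, mem_Ex, mem_Ex]
  have h1 : ∑ s, (Sum.elim e b₀ : ν₀ ⊕ η → ℕ) s = ∑ s, (e + zs z (∑ s, b₀ s)) s := by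
    rw [sum_pa_pb]
    simp only [Pi.add_apply]
    rw [sum_add_distrib, sum_zs]
    rfl
  rw [h1]
  constructor
  · rintro ⟨⟨h2, h3⟩, -⟩
    refine ⟨h2, fun i hi => ?_⟩
    obtain ⟨s, hs, hs'⟩ := h3 i hi
    rcases s with s | s
    · refine ⟨s, by rw [← hβ, hs], ?_⟩
      have h4 : e s ≠ 0 := hs'
      rw [Pi.add_apply]
      omega
    · have := hη s
      omega
  · rintro ⟨h2, h3⟩
    refine ⟨⟨h2, fun i hi => ?_⟩, hb⟩
    obtain ⟨s, hs, hs'⟩ := h3 i hi
    refine ⟨Sum.inl s, by rw [hβ, hs], ?_⟩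
    have h4 : s ≠ z := by
      rintro rfl
      omega
    rw [add_zs_ne _ h4] at hs'
    exact hs'

/-- The Taylor coefficients of a form whose pieces are derivatives. -/
theorem tcr_sum_EB (hβ : ∀ s, β (Sum.inl s) = β₀ s) (hη : ∀ t, j ≤ β (Sum.inr t))
    (hz : j ≤ β₀ z) (d : ℕ) {B : Finset (η → ℕ)} (F : {a // a ∈ EB β d j B} → ℂ)
    (H : (η → ℕ) → (ν₀ → ℕ) → ℂ)
    (hF : ∀ a : {a // a ∈ EB β d j B}, F a =
      (((pa a.1 z + ∑ s, pb a.1 s).choose (∑ s, pb a.1 s) : ℕ) : ℂ) *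
        H (pb a.1) (pa a.1 + zs z (∑ s, pb a.1 s)))
    (q : ν₀ → ℂ) (b : ν₀ ⊕ η → ℕ) :
    ∑ a : {a // a ∈ EB β d j B}, F a * tcr (Sum.elim q fun _ => (0 : ℂ)) a.1 b =
      if pb b ∈ B then (((pa b z + ∑ s, pb b s).choose (∑ s, pb b s) : ℕ) : ℂ) *
        ∑ e : {a // a ∈ Ex β₀ d j}, H (pb b) e.1 * tcr q e.1 (pa b + zs z (∑ s, pb b s)) else 0 := by
  have h1 : ∀ a : {a // a ∈ EB β d j B}, F a * tcr (Sum.elim q fun _ => (0 : ℂ)) a.1 b =
      if pb a.1 = pb b then (((pa b z + ∑ s, pb b s).choose (∑ s, pb b s) : ℕ) : ℂ) *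
        (H (pb b) (pa a.1 + zs z (∑ s, pb b s)) *
          tcr q (pa a.1 + zs z (∑ s, pb b s)) (pa b + zs z (∑ s, pb b s))) else 0 := by
    intro a
    rw [tcr_elim, hF a]
    split_ifs with h2
    · rw [h2]
      have h3 := tcr_shift q (pa a.1) (pa b) z (∑ s, pb b s)
      rw [mul_one]
      linear_combination (H (pb b) (pa a.1 + zs z (∑ s, pb b s))) * h3
    · rw [mul_zero, mul_zero]
  rw [sum_congr rfl fun a _ => h1 a]
  split_ifs with hb
  · have h2 := bij_sum (EB β d j B) (Ex β₀ d j) z (pb b) (∑ s, pb b s)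
      (mem_EB_iff hβ hη hz d hb) (fun c => (((pa b z + ∑ s, pb b s).choose (∑ s, pb b s) : ℕ) : ℂ) *
        (H (pb b) c * tcr q c (pa b + zs z (∑ s, pb b s)))) (fun c hc => by
        rw [tcr_lt (z := z) (by
          rw [add_zs_same]
          omega)]
        rw [mul_zero, mul_zero])
    rw [sum_coe_sort (EB β d j B) (fun a => if pb a = pb b then
      (((pa b z + ∑ s, pb b s).choose (∑ s, pb b s) : ℕ) : ℂ) *
        (H (pb b) (pa a + zs z (∑ s, pb b s)) *
          tcr q (pa a + zs z (∑ s, pb b s)) (pa b + zs z (∑ s, pb b s))) else 0), h2,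
      sum_coe_sort (Ex β₀ d j) (fun e => H (pb b) e * tcr q e (pa b + zs z (∑ s, pb b s))), mul_sum]
  · refine sum_eq_zero fun a _ => ?_
    rw [if_neg]
    intro h2
    refine hb ?_
    rw [← h2]
    exact (mem_EB.1 a.2).2

/-- If the forms `H b` satisfy the conditions of a point then the form whose pieces are the derivatives
of the `H b` satisfies the conditions of the point with the coordinates `0` on the second part. -/
theorem satK_der (hβ : ∀ s, β (Sum.inl s) = β₀ s) (hη : ∀ t, j ≤ β (Sum.inr t))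
    (hz : j ≤ β₀ z) (M d : ℕ) (hM : 1 ≤ M) {B : Finset (η → ℕ)} (F : {a // a ∈ EB β d j B} → ℂ)
    (H : (η → ℕ) → (ν₀ → ℕ) → ℂ)
    (hF : ∀ a : {a // a ∈ EB β d j B}, F a =
      (((pa a.1 z + ∑ s, pb a.1 s).choose (∑ s, pb a.1 s) : ℕ) : ℂ) *
        H (pb a.1) (pa a.1 + zs z (∑ s, pb a.1 s)))
    {k : Kd} (hk : k.Ok M j) (q : ν₀ ⊕ ν₀ → ℂ)
    (h : ∀ b, SatK M β₀ k q fun e : {a // a ∈ Ex β₀ d j} => H b e.1) :
    SatK M β k (ex0 phi q) F := by
  have hfat : ∀ (μ : ℕ) (I : Finset ℕ),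
      (∀ b, Fat (fun e : {a // a ∈ Ex β₀ d j} => e.1) μ (msk β₀ I fun s => q (Sum.inl s))
        fun e => H b e.1) →
      Fat (fun e : {a // a ∈ EB β d j B} => e.1) μ (msk β I fun s => ex0 phi q (Sum.inl s)) F := by
    intro μ I h1 b hb
    rw [msk_phi_inl β₀ β hβ, tcr_sum_EB hβ hη hz d F H hF]
    split_ifs
    · rw [h1 (pb b) (pa b + zs z (∑ s, pb b s)) (by
        simp only [Pi.add_apply]
        rw [sum_add_distrib, sum_zs, ← sum_pa_pb]
        exact hb), mul_zero]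
    · rfl
  rcases k with ⟨μ, I⟩ | ⟨i, I⟩
  · exact hfat μ I h
  · refine ⟨hfat M (insert i I) fun b => (h b).1, fun a ha h1 h2 => ?_⟩
    have hzi : z ∉ univ.filter fun s => β₀ s = i := by
      rw [mem_filter]
      rintro ⟨-, h3⟩
      have := hk.1
      omega
    rw [msk_phi_inl β₀ β hβ, msk_phi_inr β₀ β hβ]
    by_cases hb : pb a ∈ B
    · have h3 : ∀ b ∈ bxd (ν₀ ⊕ η) (2 * M) M,
          tcr (Sum.elim (msk β₀ I fun s => q (Sum.inr s)) fun _ => (0 : ℂ)) b a *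
            ∑ e : {a // a ∈ EB β d j B}, F e *
              tcr (Sum.elim (msk β₀ (insert i I) fun s => q (Sum.inl s)) fun _ => (0 : ℂ)) e.1 b =
          if pb b = pb a then (((pa a z + ∑ s, pb a s).choose (∑ s, pb a s) : ℕ) : ℂ) *
            (tcr (msk β₀ I fun s => q (Sum.inr s)) (pa b + zs z (∑ s, pb a s))
              (pa a + zs z (∑ s, pb a s)) *
            ∑ e : {a // a ∈ Ex β₀ d j}, H (pb a) e.1 *
              tcr (msk β₀ (insert i I) fun s => q (Sum.inl s)) e.1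
                (pa b + zs z (∑ s, pb a s))) else 0 := by
        intro b _
        rw [tcr_elim, tcr_sum_EB hβ hη hz d F H hF]
        split_ifs with h4 h5 h5
        · rw [h4, mul_one]
          have h6 := tcr_shift (msk β₀ I fun s => q (Sum.inr s)) (pa b) (pa a) z (∑ s, pb a s)
          linear_combination (∑ e : {a // a ∈ Ex β₀ d j}, H (pb a) e.1 *
              tcr (msk β₀ (insert i I) fun s => q (Sum.inl s)) e.1
                (pa b + zs z (∑ s, pb a s))) * h6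
        · rw [h4] at h5
          exact absurd hb h5
        · rw [mul_zero, zero_mul]
        · rw [mul_zero]
      rw [sum_congr rfl h3, bij_sum (bxd (ν₀ ⊕ η) (2 * M) M) (bxd ν₀ (2 * M) M) z (pb a)
        (∑ s, pb a s) (by
          intro e
          unfold bxd
          rw [mem_filter, mem_filter, mem_bx, mem_bx]
          have h4 : ∑ s, (Sum.elim e (pb a) : ν₀ ⊕ η → ℕ) s =
              ∑ s, (e + zs z (∑ s, pb a s)) s := by
            rw [sum_pa_pb]
            simp only [Pi.add_apply]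
            rw [sum_add_distrib, sum_zs]
            rfl
          rw [h4]
          constructor
          · rintro ⟨-, h5⟩
            refine ⟨fun s => ?_, h5⟩
            have h6 := single_le_sum (f := e + zs z (∑ s, pb a s)) (fun _ _ => Nat.zero_le _)
              (mem_univ s)
            omega
          · rintro ⟨-, h5⟩
            refine ⟨fun s => ?_, h5⟩
            have h6 := single_le_sum (f := (Sum.elim e (pb a) : ν₀ ⊕ η → ℕ))
              (fun _ _ => Nat.zero_le _) (mem_univ s)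
            omega) (fun c => (((pa a z + ∑ s, pb a s).choose (∑ s, pb a s) : ℕ) : ℂ) *
            (tcr (msk β₀ I fun s => q (Sum.inr s)) c (pa a + zs z (∑ s, pb a s)) *
            ∑ e : {a // a ∈ Ex β₀ d j}, H (pb a) e.1 *
              tcr (msk β₀ (insert i I) fun s => q (Sum.inl s)) e.1 c)) (fun c hc => by
          rw [tcr_lt (z := z) (by
            rw [add_zs_same]
            omega), zero_mul, mul_zero])]
      rw [← mul_sum]
      rw [(h (pb a)).2 (pa a + zs z (∑ s, pb a s)) (fun s hs => by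
        have h4 : s ≠ z := by
          rintro rfl
          exact hzi hs
        rw [add_zs_ne _ h4]
        exact ha (Sum.inl s) (by
          rw [mem_filter] at hs ⊢
          exact ⟨mem_univ _, by rw [hβ]; exact hs.2⟩)) (by
        simp only [Pi.add_apply]
        rw [sum_add_distrib, sum_zs, ← sum_pa_pb]
        exact h1) (by
        simp only [Pi.add_apply]
        rw [sum_add_distrib, sum_zs, ← sum_pa_pb]
        exact h2), mul_zero]
    · refine sum_eq_zero fun b _ => ?_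
      rw [tcr_elim, tcr_sum_EB hβ hη hz d F H hF]
      by_cases h4 : pb b = pb a
      · rw [h4, if_neg hb, mul_zero]
      · rw [if_neg h4, mul_zero, zero_mul]

/-- Extension by `0`. -/
noncomputable def xt {ν : Type} [DecidableEq ν] [Fintype ν] {A : Finset (ν → ℕ)}
    (f : {a // a ∈ A} → ℂ) (a : ν → ℕ) : ℂ :=
  if h : a ∈ A then f ⟨a, h⟩ else 0

theorem xt_coe {ν : Type} [DecidableEq ν] [Fintype ν] {A : Finset (ν → ℕ)}
    (f : {a // a ∈ A} → ℂ) (a : {a // a ∈ A}) : xt f a.1 = f a := by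
  unfold xt
  rw [dif_pos a.2]

/-- **Independence on the piece `0` gives independence.** -/
theorem surj_EB (hβ : ∀ s, β (Sum.inl s) = β₀ s) (hη : ∀ t, j ≤ β (Sum.inr t))
    (hz : j ≤ β₀ z) (M : ℕ) (hM : 1 ≤ M) (B : Finset (η → ℕ)) {κ : Type} (m : κ → Kd)
    (hm : ∀ i, (m i).Ok M j) (p : κ → ν₀ ⊕ ν₀ → ℂ)
    (h : Surj fun i => (LS M β₀ j).V (fun _ : Unit => m i) fun _ => p i) :
    Surj fun i => (LSA M β (EB β (2 * M - 1) j B)).V (fun _ : Unit => m i) fun _ =>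
      ex0 phi (p i) := by
  intro f
  have h1 : ∀ b : η → ℕ, ∃ G : {a // a ∈ Ex β₀ (2 * M - 1) j} → ℂ, ∀ i,
      G - (fun c => xt (f i) (Sum.elim (c.1 - zs z (∑ s, b s)) b) /
        (((c.1 z).choose (∑ s, b s) : ℕ) : ℂ)) ∈
          (LS M β₀ j).V (fun _ : Unit => m i) fun _ => p i := fun b => h _
  choose G hG using h1
  refine ⟨fun a => (((pa a.1 z + ∑ s, pb a.1 s).choose (∑ s, pb a.1 s) : ℕ) : ℂ) *
    xt (G (pb a.1)) (pa a.1 + zs z (∑ s, pb a.1 s)), fun i => ?_⟩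
  rw [mem_LSA]
  intro _
  refine satK_der hβ hη hz M (2 * M - 1) hM _ (fun b c => xt (G b) c -
    xt (f i) (Sum.elim (c - zs z (∑ s, b s)) b) / (((c z).choose (∑ s, b s) : ℕ) : ℂ))
    (fun a => ?_) (hm i) (p i) fun b => ?_
  · have h2 : (Sum.elim (pa a.1) (pb a.1) : ν₀ ⊕ η → ℕ) = a.1 := by
      funext s
      rcases s with s | s <;> rfl
    have h3 : (((pa a.1 z + ∑ s, pb a.1 s).choose (∑ s, pb a.1 s) : ℕ) : ℂ) ≠ 0 := by
      rw [Nat.cast_ne_zero]
      exact (Nat.choose_pos (Nat.le_add_left _ _)).ne'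
    rw [Pi.sub_apply]
    rw [add_sub_zs, h2, xt_coe (f i) a, add_zs_same, mul_sub, mul_div_cancel₀ _ h3]
  · have h2 := hG b i
    rw [mem_LSA] at h2
    have h3 := h2 ()
    have h4 : (fun e : {a // a ∈ Ex β₀ (2 * M - 1) j} => xt (G b) e.1 -
        xt (f i) (Sum.elim (e.1 - zs z (∑ s, b s)) b) / (((e.1 z).choose (∑ s, b s) : ℕ) : ℂ)) =
        G b - (fun c => xt (f i) (Sum.elim (c.1 - zs z (∑ s, b s)) b) /
        (((c.1 z).choose (∑ s, b s) : ℕ) : ℂ)) := by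
      funext e
      rw [Pi.sub_apply, xt_coe]
    rw [h4]
    exact h3

end

end Pool.Agent.V8
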