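import Pool.Agent.V8.Defs

/-!
# V8, ROOM: derivatives with respect to one variable carry independence to all pieces

Variables `ν₀ ⊕ η`, positions with the coordinates on `η` equal to `0`: the conditions decouple into the
pieces `b : η → ℕ`.  If `H` satisfies the conditions of a point in the variables `ν₀` then its
derivative of order `|b|` with respect to a variable `z` satisfies the conditions on the piece `b`.
-/

set_option autoImplicit false
set_option linter.unusedSectionVars false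

namespace Pool.Agent.V8

open Finset MvPolynomial Pool.Agent.H51.TB Pool.Agent.H54.V7 Pool.Agent.V7
open Pool.Agent.H18.Ex (tcr)

section

variable {ν₀ η : Type} [Fintype ν₀] [DecidableEq ν₀] [Fintype η] [DecidableEq η]

/-- The exponent of `z ^ h`. -/
def zs (z : ν₀) (h : ℕ) : ν₀ → ℕ := fun s => if s = z then h else 0

theorem zs_same (z : ν₀) (h : ℕ) : zs z h z = h := if_pos rfl

theorem zs_ne {z s : ν₀} (hs : s ≠ z) (h : ℕ) : zs z h s = 0 := if_neg hs

theorem sum_zs (z : ν₀) (h : ℕ) : ∑ s, zs z h s = h := by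
  unfold zs
  rw [sum_ite_eq' univ z fun _ => h, if_pos (mem_univ z)]

theorem add_zs_same (e : ν₀ → ℕ) (z : ν₀) (h : ℕ) : (e + zs z h) z = e z + h := by
  rw [Pi.add_apply, zs_same]

theorem add_zs_ne (e : ν₀ → ℕ) {z s : ν₀} (hs : s ≠ z) (h : ℕ) : (e + zs z h) s = e s := by
  rw [Pi.add_apply, zs_ne hs, Nat.add_zero]

theorem sub_add_zs {c : ν₀ → ℕ} {z : ν₀} {h : ℕ} (hc : h ≤ c z) : c - zs z h + zs z h = c := by
  funext s
  rw [Pi.add_apply, Pi.sub_apply]
  by_cases hs : s = z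
  · subst hs
    rw [zs_same]
    omega
  · rw [zs_ne hs]
    omega

theorem add_sub_zs (e : ν₀ → ℕ) (z : ν₀) (h : ℕ) : e + zs z h - zs z h = e := by
  funext s
  rw [Pi.sub_apply, Pi.add_apply, Nat.add_sub_cancel]

/-! ### Taylor coefficients -/

theorem tcr_shift (q : ν₀ → ℂ) (e b : ν₀ → ℕ) (z : ν₀) (h : ℕ) :
    ((e z + h).choose h : ℂ) * tcr q e b =
      ((b z + h).choose h : ℂ) * tcr q (e + zs z h) (b + zs z h) := by
  unfold tcr
  rw [← mul_prod_erase univ (fun i => (((e i).choose (b i) : ℕ) : ℂ) * q i ^ (e i - b i))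
    (mem_univ z), ← mul_prod_erase univ
    (fun i => ((((e + zs z h) i).choose ((b + zs z h) i) : ℕ) : ℂ) *
      q i ^ ((e + zs z h) i - (b + zs z h) i)) (mem_univ z)]
  have h1 : ∏ i ∈ univ.erase z, (((e i).choose (b i) : ℕ) : ℂ) * q i ^ (e i - b i) =
      ∏ i ∈ univ.erase z, ((((e + zs z h) i).choose ((b + zs z h) i) : ℕ) : ℂ) *
        q i ^ ((e + zs z h) i - (b + zs z h) i) := by
    refine prod_congr rfl fun i hi => ?_
    have hi' : i ≠ z := ne_of_mem_erase hi
    rw [add_zs_ne _ hi', add_zs_ne _ hi']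
  rw [h1, add_zs_same, add_zs_same, Nat.add_sub_add_right]
  have h4 : (e z + h).choose h * (e z).choose (b z) =
      (b z + h).choose h * (e z + h).choose (b z + h) := by
    by_cases hb : b z ≤ e z
    · have h5 := Nat.choose_mul (n := e z + h) (k := b z + h) (s := h) (by omega)
      rw [Nat.add_sub_cancel, Nat.add_sub_cancel] at h5
      rw [← h5, Nat.mul_comm]
    · rw [Nat.choose_eq_zero_of_lt (Nat.lt_of_not_le hb), Nat.choose_eq_zero_of_lt
        (show e z + h < b z + h by omega)]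
      simp
  have h5 : ((e z + h).choose h : ℂ) * ((e z).choose (b z) : ℂ) =
      ((b z + h).choose h : ℂ) * ((e z + h).choose (b z + h) : ℂ) := by
    exact_mod_cast congrArg (fun n : ℕ => (n : ℂ)) h4
  rw [← mul_assoc, ← mul_assoc, ← mul_assoc, ← mul_assoc, h5]

theorem tcr_lt {q : ν₀ → ℂ} {e b : ν₀ → ℕ} {z : ν₀} (h : e z < b z) : tcr q e b = 0 := by
  unfold tcr
  refine prod_eq_zero (mem_univ z) ?_
  rw [Nat.choose_eq_zero_of_lt h]
  simp

theorem tcr_zero (e b : η → ℕ) : tcr (fun _ => (0 : ℂ)) e b = if e = b then 1 else 0 := by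
  unfold tcr
  split_ifs with h
  · subst h
    refine prod_eq_one fun i _ => ?_
    simp
  · obtain ⟨i, hi⟩ := Function.ne_iff.1 h
    refine prod_eq_zero (mem_univ i) ?_
    show (((e i).choose (b i) : ℕ) : ℂ) * (0 : ℂ) ^ (e i - b i) = 0
    rcases Nat.lt_or_gt_of_ne hi with h1 | h1
    · rw [Nat.choose_eq_zero_of_lt h1]
      simp
    · rw [zero_pow (by omega), mul_zero]

/-- The exponents on the two parts. -/
abbrev pa (a : ν₀ ⊕ η → ℕ) : ν₀ → ℕ := fun s => a (Sum.inl s)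

/-- The exponents on the second part. -/
abbrev pb (a : ν₀ ⊕ η → ℕ) : η → ℕ := fun s => a (Sum.inr s)

theorem sum_pa_pb (a : ν₀ ⊕ η → ℕ) : ∑ s, a s = ∑ s, pa a s + ∑ s, pb a s :=
  Fintype.sum_sum_type a

theorem tcr_elim (q : ν₀ → ℂ) (e b : ν₀ ⊕ η → ℕ) :
    tcr (Sum.elim q fun _ => (0 : ℂ)) e b = tcr q (pa e) (pa b) * if pb e = pb b then 1 else 0 := by
  rw [← tcr_zero (pb e) (pb b)]
  unfold tcr
  exact Fintype.prod_sum_type _

theorem bij_sum (X : Finset (ν₀ ⊕ η → ℕ)) (X₀ : Finset (ν₀ → ℕ)) (z : ν₀) (b₀ : η → ℕ) (h : ℕ)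
    (hX : ∀ e : ν₀ → ℕ, Sum.elim e b₀ ∈ X ↔ e + zs z h ∈ X₀) (φ : (ν₀ → ℕ) → ℂ)
    (hφ : ∀ c : ν₀ → ℕ, c z < h → φ c = 0) :
    ∑ a ∈ X, (if pb a = b₀ then φ (pa a + zs z h) else 0) = ∑ c ∈ X₀, φ c := by
  rw [← sum_filter]
  have h1 : ∑ c ∈ X₀, φ c = ∑ c ∈ X₀.filter (fun c => h ≤ c z), φ c := by
    rw [sum_filter]
    refine sum_congr rfl fun c _ => ?_
    split_ifs with h2
    · rfl
    · exact hφ c (Nat.lt_of_not_le h2)
  rw [h1]
  have hel : ∀ a : ν₀ ⊕ η → ℕ, Sum.elim (pa a) (pb a) = a := by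
    intro a
    funext s
    rcases s with s | s <;> rfl
  refine sum_nbij' (fun a => pa a + zs z h) (fun c => Sum.elim (c - zs z h) b₀)
    ?_ ?_ ?_ ?_ ?_
  · intro a ha
    rw [mem_filter] at ha ⊢
    refine ⟨(hX _).1 ?_, ?_⟩
    · rw [← ha.2, hel]
      exact ha.1
    · rw [add_zs_same]
      omega
  · intro c hc
    rw [mem_filter] at hc ⊢
    refine ⟨(hX _).2 ?_, rfl⟩
    rw [sub_add_zs hc.2]
    exact hc.1
  · intro a ha
    rw [mem_filter] at ha
    funext s
    rcases s with s | s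
    · show (pa a + zs z h - zs z h) s = a (Sum.inl s)
      rw [add_sub_zs]
    · show b₀ s = a (Sum.inr s)
      rw [← ha.2]
  · intro c hc
    rw [mem_filter] at hc
    exact sub_add_zs hc.2
  · intro a ha
    rfl

end

end Pool.Agent.V8
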